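import Pool.Agent.PCL.Stmts

set_option autoImplicit false

namespace Pool.Agent.PCL.H13

open Classical in
theorem crc_res (q m : ℕ) (A : Finset ℤ)
    (h : ∀ B ⊆ A, (∀ a ∈ B, ∀ b ∈ B, (q : ℤ) ∣ a - b → a = b) → B.card ≤ m) :
    (A.image (fun a => a % (q : ℤ))).card ≤ m := by
  have hf : ∀ r : ℤ, ∃ a : ℤ, r ∈ A.image (fun a => a % (q : ℤ)) → a ∈ A ∧ a % (q : ℤ) = r := by
    intro r
    by_cases hr : r ∈ A.image (fun a => a % (q : ℤ))
    · rw [Finset.mem_image] at hr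
      obtain ⟨a, ha, har⟩ := hr
      exact ⟨a, fun _ => ⟨ha, har⟩⟩
    · exact ⟨0, fun h' => absurd h' hr⟩
  choose f hf using hf
  have hinj : Set.InjOn f ((A.image (fun a => a % (q : ℤ)) : Finset ℤ) : Set ℤ) := by
    intro r hr r' hr' he
    rw [← (hf r (Finset.mem_coe.1 hr)).2, ← (hf r' (Finset.mem_coe.1 hr')).2, he]
  rw [← Finset.card_image_of_injOn hinj]
  apply h
  · intro x hx
    rw [Finset.mem_image] at hx
    obtain ⟨r, hr, rfl⟩ := hx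
    exact (hf r hr).1
  · intro a ha b hb hab
    rw [Finset.mem_image] at ha hb
    obtain ⟨r, hr, rfl⟩ := ha
    obtain ⟨r', hr', rfl⟩ := hb
    have h1 : f r % (q : ℤ) = f r' % (q : ℤ) := Int.emod_eq_emod_iff_emod_sub_eq_zero.2
        (Int.emod_eq_zero_of_dvd hab)
    rw [(hf r hr).2, (hf r' hr').2] at h1
    rw [h1]

open Classical in
theorem crc_mul (q Q : ℕ) (A : Finset ℤ) (hc : Nat.Coprime q Q) :
    (A.image (fun a => a % ((q * Q : ℕ) : ℤ))).card ≤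
      (A.image (fun a => a % (q : ℤ))).card * (A.image (fun a => a % (Q : ℤ))).card := by
  rw [← Finset.card_product]
  refine Finset.card_le_card_of_injOn (fun r => (r % (q : ℤ), r % (Q : ℤ))) ?_ ?_
  · intro r hr
    rw [Finset.mem_coe, Finset.mem_image] at hr
    obtain ⟨a, ha, rfl⟩ := hr
    rw [Finset.mem_coe, Finset.mem_product, Finset.mem_image, Finset.mem_image]
    refine ⟨⟨a, ha, ?_⟩, ⟨a, ha, ?_⟩⟩
    · exact (Int.emod_emod_of_dvd a (by push_cast; exact dvd_mul_right _ _)).symm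
    · exact (Int.emod_emod_of_dvd a (by push_cast; exact dvd_mul_left _ _)).symm
  · intro r hr r' hr' he
    rw [Finset.mem_coe, Finset.mem_image] at hr hr'
    obtain ⟨a, ha, rfl⟩ := hr
    obtain ⟨b, hb, rfl⟩ := hr'
    simp only [Prod.mk.injEq] at he
    rw [Int.emod_emod_of_dvd a (by push_cast; exact dvd_mul_right _ _),
      Int.emod_emod_of_dvd a (by push_cast; exact dvd_mul_left _ _),
      Int.emod_emod_of_dvd b (by push_cast; exact dvd_mul_right _ _),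
      Int.emod_emod_of_dvd b (by push_cast; exact dvd_mul_left _ _)] at he
    have h1 : (q : ℤ) ∣ a - b := Int.dvd_of_emod_eq_zero (Int.emod_eq_emod_iff_emod_sub_eq_zero.1 he.1)
    have h2 : (Q : ℤ) ∣ a - b := Int.dvd_of_emod_eq_zero (Int.emod_eq_emod_iff_emod_sub_eq_zero.1 he.2)
    have h3 : ((q * Q : ℕ) : ℤ) ∣ a - b := by
      push_cast
      exact IsCoprime.mul_dvd (Nat.isCoprime_iff_coprime.2 hc) h1 h2
    exact Int.emod_eq_emod_iff_emod_sub_eq_zero.2 (Int.emod_eq_zero_of_dvd h3)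

open Classical in
theorem crc_all (m : ℕ) (S : Finset ℕ) (A : Finset ℤ) 
    (hcop : ∀ q ∈ S, ∀ q' ∈ S, q ≠ q' → Nat.Coprime q q')
    (h : ∀ q ∈ S, ∀ B ⊆ A, (∀ a ∈ B, ∀ b ∈ B, (q : ℤ) ∣ a - b → a = b) → B.card ≤ m) :
    (A.image (fun a => a % ((∏ q ∈ S, q : ℕ) : ℤ))).card ≤ m ^ S.card := by
  induction S using Finset.induction_on with
  | empty =>
    simp only [Finset.prod_empty, Nat.cast_one, Int.emod_one, Finset.card_empty, pow_zero]
    refine Finset.card_le_one.2 ?_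
    intro a ha b hb
    rw [Finset.mem_image] at ha hb
    obtain ⟨_, _, rfl⟩ := ha
    obtain ⟨_, _, rfl⟩ := hb
    rfl
  | insert q S hq ih =>
    have h1 := ih (fun a ha b hb => hcop a (Finset.mem_insert_of_mem ha) b
      (Finset.mem_insert_of_mem hb)) (fun a ha => h a (Finset.mem_insert_of_mem ha))
    have h2 := crc_res q m A (h q (Finset.mem_insert_self q S))
    have hc : Nat.Coprime q (∏ q ∈ S, q) := by
      apply Nat.Coprime.prod_right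
      intro q' hq'
      exact hcop q (Finset.mem_insert_self q S) q' (Finset.mem_insert_of_mem hq')
        (fun he => hq (he ▸ hq'))
    rw [Finset.prod_insert hq, Finset.card_insert_of_notMem hq, pow_succ]
    calc (A.image (fun a => a % ((q * ∏ q ∈ S, q : ℕ) : ℤ))).card
        ≤ (A.image (fun a => a % (q : ℤ))).card *
          (A.image (fun a => a % ((∏ q ∈ S, q : ℕ) : ℤ))).card := crc_mul q _ A hc
      _ ≤ m * m ^ S.card := Nat.mul_le_mul h2 h1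
      _ = m ^ S.card * m := Nat.mul_comm _ _

open Classical in
theorem crc_fib (R Q : ℕ) (hQ : 0 < Q) (A : Finset ℤ) (hA : ∀ a ∈ A, |a| ≤ (R : ℤ)) (r : ℤ) :
    (((A.filter (fun a => a % (Q : ℤ) = r)).card : ℕ) : ℝ) ≤ (2 * (R : ℝ) + 1) / (Q : ℝ) + 1 := by
  have hQ' : (0 : ℤ) < (Q : ℤ) := by exact_mod_cast hQ
  have hQr : (0 : ℝ) < (Q : ℝ) := by exact_mod_cast hQ
  have hsub : A.filter (fun a => a % (Q : ℤ) = r) ⊆
      (Finset.Ioc (-(R : ℤ) - 1) (R : ℤ)).filter (fun a => a ≡ r [ZMOD (Q : ℤ)]) := by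
    intro a ha
    rw [Finset.mem_filter] at ha
    have h1 := abs_le.1 (hA a ha.1)
    rw [Finset.mem_filter, Finset.mem_Ioc]
    refine ⟨⟨by linarith [h1.1], h1.2⟩, ?_⟩
    rw [← ha.2]
    exact (Int.mod_modEq a (Q : ℤ)).symm
  have h1 := Finset.card_le_card hsub
  have h2 := Int.Ioc_filter_modEq_card (-(R : ℤ) - 1) (R : ℤ) hQ' r
  have hpos : (0 : ℝ) ≤ (2 * (R : ℝ) + 1) / (Q : ℝ) + 1 := by positivity
  have h3 : (((⌊(((R : ℤ) : ℚ) - (r : ℚ)) / ((Q : ℤ) : ℚ)⌋ -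
      ⌊(((-(R : ℤ) - 1 : ℤ) : ℚ) - (r : ℚ)) / ((Q : ℤ) : ℚ)⌋ : ℤ) : ℚ)) ≤
        (2 * (R : ℚ) + 1) / (Q : ℚ) + 1 := by
    have i1 := Int.floor_le ((((R : ℤ) : ℚ) - (r : ℚ)) / ((Q : ℤ) : ℚ))
    have i2 := Int.lt_floor_add_one ((((-(R : ℤ) - 1 : ℤ) : ℚ) - (r : ℚ)) / ((Q : ℤ) : ℚ))
    push_cast at i1 i2 ⊢
    have e : (2 * (R : ℚ) + 1) / (Q : ℚ) = ((R : ℚ) - r) / Q - ((-(R : ℚ) - 1) - r) / Q := by
      rw [← sub_div]
      congr 1
      ring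
    rw [e]
    linarith
  have h3' : (((⌊(((R : ℤ) : ℚ) - (r : ℚ)) / ((Q : ℤ) : ℚ)⌋ -
      ⌊(((-(R : ℤ) - 1 : ℤ) : ℚ) - (r : ℚ)) / ((Q : ℤ) : ℚ)⌋ : ℤ) : ℝ)) ≤
        (2 * (R : ℝ) + 1) / (Q : ℝ) + 1 := by
    have h5 := (Rat.cast_le (K := ℝ)).2 h3
    rw [Rat.cast_intCast] at h5
    refine h5.trans (le_of_eq ?_)
    push_cast
    rfl
  have h4 : ((((Finset.Ioc (-(R : ℤ) - 1) (R : ℤ)).filter
      (fun a => a ≡ r [ZMOD (Q : ℤ)])).card : ℤ) : ℝ) ≤ (2 * (R : ℝ) + 1) / (Q : ℝ) + 1 := by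
    rw [h2]
    rw [Int.cast_max]
    apply max_le
    · exact h3'
    · simpa using hpos
  calc (((A.filter (fun a => a % (Q : ℤ) = r)).card : ℕ) : ℝ)
      ≤ ((((Finset.Ioc (-(R : ℤ) - 1) (R : ℤ)).filter
        (fun a => a ≡ r [ZMOD (Q : ℤ)])).card : ℕ) : ℝ) := by exact_mod_cast h1
    _ ≤ _ := by exact_mod_cast h4

theorem crc : CrcStmt := by
  classical
  intro m R S A hpos hcop hA h
  have hQ : 0 < ∏ q ∈ S, q := Finset.prod_pos hpos
  have h1 := crc_all m S A hcop h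
  have h2 := crc_fib R (∏ q ∈ S, q) hQ A hA
  have h3 : (A.card : ℝ) = ∑ r ∈ A.image (fun a => a % ((∏ q ∈ S, q : ℕ) : ℤ)),
      (((A.filter (fun a => a % ((∏ q ∈ S, q : ℕ) : ℤ) = r)).card : ℕ) : ℝ) := by
    rw [Finset.card_eq_sum_card_image (fun a => a % ((∏ q ∈ S, q : ℕ) : ℤ)) A]
    push_cast
    rfl
  have hp : (∏ q ∈ S, (q : ℝ)) = ((∏ q ∈ S, q : ℕ) : ℝ) := by
    push_cast
    rfl
  rw [h3, hp]
  calc ∑ r ∈ A.image (fun a => a % ((∏ q ∈ S, q : ℕ) : ℤ)),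
      (((A.filter (fun a => a % ((∏ q ∈ S, q : ℕ) : ℤ) = r)).card : ℕ) : ℝ)
      ≤ ∑ r ∈ A.image (fun a => a % ((∏ q ∈ S, q : ℕ) : ℤ)),
        ((2 * (R : ℝ) + 1) / ((∏ q ∈ S, q : ℕ) : ℝ) + 1) := Finset.sum_le_sum fun r _ => h2 r
    _ = ((A.image (fun a => a % ((∏ q ∈ S, q : ℕ) : ℤ))).card : ℝ) *
        ((2 * (R : ℝ) + 1) / ((∏ q ∈ S, q : ℕ) : ℝ) + 1) := by
        rw [Finset.sum_const, nsmul_eq_mul]
    _ ≤ (m : ℝ) ^ S.card * ((2 * (R : ℝ) + 1) / ((∏ q ∈ S, q : ℕ) : ℝ) + 1) := by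
        apply mul_le_mul_of_nonneg_right _ (by positivity)
        exact_mod_cast h1

end Pool.Agent.PCL.H13
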