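import Pool.Agent.PCL.Stmts

set_option autoImplicit false

namespace Pool.Agent.PCL.H13

theorem esy_aux (s a : ℝ) (hs : 0 ≤ s) (ha : 0 ≤ a) (k : ℕ) :
    s ^ (k + 1) + ((k : ℝ) + 1) * a * s ^ k ≤ (s + a) ^ (k + 1) := by
  induction k with
  | zero => simp
  | succ k ih =>
    have h0 : 0 ≤ s ^ k := pow_nonneg hs k
    have h1 : (s ^ (k + 1) + ((k : ℝ) + 1) * a * s ^ k) * (s + a) ≤ (s + a) ^ (k + 1) * (s + a) :=
      mul_le_mul_of_nonneg_right ih (add_nonneg hs ha)
    have h2 : 0 ≤ ((k : ℝ) + 1) * (a * a) * s ^ k := by positivity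
    rw [pow_succ (s + a) (k + 1)]
    push_cast
    calc s ^ (k + 1 + 1) + ((k : ℝ) + 1 + 1) * a * s ^ (k + 1)
        ≤ (s ^ (k + 1) + ((k : ℝ) + 1) * a * s ^ k) * (s + a) := by
          have e : (s ^ (k + 1) + ((k : ℝ) + 1) * a * s ^ k) * (s + a)
            = s ^ (k + 1 + 1) + ((k : ℝ) + 1 + 1) * a * s ^ (k + 1)
              + ((k : ℝ) + 1) * (a * a) * s ^ k := by ring
          rw [e]
          linarith
      _ ≤ (s + a) ^ (k + 1) * (s + a) := h1

theorem esy : EsyStmt := by
  intro T w
  induction T using Finset.induction_on with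
  | empty =>
    intro k _
    cases k with
    | zero => simp
    | succ k =>
      have : (∅ : Finset ℕ).powersetCard (k + 1) = ∅ := by
        apply Finset.powersetCard_eq_empty.2
        simp
      rw [this]
      simp
  | insert a T ha ih =>
    intro k hw
    have hwa : 0 ≤ w a := hw a (Finset.mem_insert_self a T)
    have hwT : ∀ i ∈ T, 0 ≤ w i := fun i hi => hw i (Finset.mem_insert_of_mem hi)
    have hs : 0 ≤ ∑ i ∈ T, w i := Finset.sum_nonneg hwT
    cases k with
    | zero => simp
    | succ k =>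
      have hdis : Disjoint (T.powersetCard (k + 1)) ((T.powersetCard k).image (insert a)) := by
        rw [Finset.disjoint_left]
        intro S hS hS2
        rw [Finset.mem_image] at hS2
        obtain ⟨S', _, rfl⟩ := hS2
        rw [Finset.mem_powersetCard] at hS
        exact ha (hS.1 (Finset.mem_insert_self a S'))
      have hinj : Set.InjOn (insert a) ((T.powersetCard k : Finset (Finset ℕ)) : Set (Finset ℕ)) := by
        intro S hS S' hS' h
        rw [Finset.mem_coe, Finset.mem_powersetCard] at hS hS'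
        have h1 : a ∉ S := fun h' => ha (hS.1 h')
        have h2 : a ∉ S' := fun h' => ha (hS'.1 h')
        rw [← Finset.erase_insert h1, ← Finset.erase_insert h2]
        exact congrArg (fun U => Finset.erase U a) h
      have e : ∑ S ∈ (insert a T).powersetCard (k + 1), ∏ i ∈ S, w i
          = ∑ S ∈ T.powersetCard (k + 1), ∏ i ∈ S, w i
            + w a * ∑ S ∈ T.powersetCard k, ∏ i ∈ S, w i := by
        rw [Finset.powersetCard_succ_insert ha, Finset.sum_union hdis, Finset.sum_image hinj,
          Finset.mul_sum]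
        congr 1
        refine Finset.sum_congr rfl fun S hS => ?_
        rw [Finset.mem_powersetCard] at hS
        have h1 : a ∉ S := fun h' => ha (hS.1 h')
        rw [Finset.prod_insert h1]
      have i1 := ih (k + 1) hwT
      have i2 := ih k hwT
      have i3 := esy_aux (∑ i ∈ T, w i) (w a) hs hwa k
      have i4 : (((k + 1).factorial : ℕ) : ℝ) = ((k : ℝ) + 1) * (k.factorial : ℝ) := by
        rw [Nat.factorial_succ]
        push_cast
        ring
      have i5 : ((k : ℝ) + 1) * w a * ((k.factorial : ℝ) * ∑ S ∈ T.powersetCard k, ∏ i ∈ S, w i)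
          ≤ ((k : ℝ) + 1) * w a * (∑ i ∈ T, w i) ^ k :=
        mul_le_mul_of_nonneg_left i2 (by positivity)
      rw [e, Finset.sum_insert ha, add_comm (w a) (∑ i ∈ T, w i)]
      calc (((k + 1).factorial : ℕ) : ℝ) * (∑ S ∈ T.powersetCard (k + 1), ∏ i ∈ S, w i
            + w a * ∑ S ∈ T.powersetCard k, ∏ i ∈ S, w i)
          = (((k + 1).factorial : ℕ) : ℝ) * ∑ S ∈ T.powersetCard (k + 1), ∏ i ∈ S, w i
            + ((k : ℝ) + 1) * w a * ((k.factorial : ℝ) * ∑ S ∈ T.powersetCard k, ∏ i ∈ S, w i) := by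
            rw [mul_add, i4]
            ring
        _ ≤ (∑ i ∈ T, w i) ^ (k + 1) + ((k : ℝ) + 1) * w a * (∑ i ∈ T, w i) ^ k := add_le_add i1 i5
        _ ≤ (∑ i ∈ T, w i + w a) ^ (k + 1) := i3

end Pool.Agent.PCL.H13
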